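import Pool.Agent.Results.MP_e573c6_ag.RandomOrbits
import Pool.Agent.N24.KM.All

/-!
# MP_e573c6_ag: Zilber-Pink for families of curves in `Y(1)^n` at algebraic parameters of all degrees, along
arbitrary sequences of integral vectors with a real parameter

The families `F`, the members `X_t = member F lam t ⊂ Y(1)^n`, and the property `ZilberPink Γ X_t` (only
finitely many points of `X_t` are on special subvarieties of codimension at least two, and each proper
special subvariety contains only finitely many points of `X_t`) are those of the starting file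
`FamiliesAlmostAllParameters`: one-parameter families of curves of any genus and any degree, not
necessarily isotrivial, which tend to the cusp `(∞, ..., ∞)` for `t → ∞` in general position
(`GoodOrigin F`).

**Parameters.** `Controlled F lam Γ m u` (file `RandomOrbits` of this page) means: the members `X_t` satisfy
`ZilberPink` for all algebraic numbers `t` of any degree `d ≥ 1` which are roots of some polynomial `f` with
integral coefficients, of degree `d`, whose leading coefficient is a multiple of `m`, and whose next
coefficient divides a power of `u`. The other coefficients of `f` are arbitrary.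

**Sequences.** The pairs `(m, u)` are two coordinates of the vectors `c_n` with the coordinates
`⌊a_(l,n) α_l⌋`, where `a_(l,n)`, `n = 0, 1, ...`, is for every `l` an arbitrary sequence of real numbers with
mutual distances at least `δ > 0`, for example any sequence of different integers (`n!`, `2 ^ n`, any
subsequence of the primes, any enumeration of an infinite set of integers), and `α` is a real vector; or
`⌊ξ_l α_l ^ (k_n)⌋`, `k_n` any sequence of different natural numbers; or, in general, `⌊f_(l,n) (α_l)⌋` for
sequences `f_(l,n)` of functions on `[a_l, b_l]` which satisfy the hypothesis of Koksma's theorem (`Koksma`).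

**Theorem.** Let `i ≠ j` be two coordinates. For almost all real vectors `α` there is one set `E` of natural
density zero, such that for **all** families `F`, `lam` and all finite sets `Γ` of algebraic numbers
`Controlled F lam Γ (c_n (i)) (c_n (j))` is true for all but finitely many `n ∉ E`.

So `E` does not depend on the family, the number of the factors, the degrees of the curves, of the `lam_l`
and of `t`, or on `Γ`; nothing is assumed about the growth or the regularity of the sequences `a_(l,n)`.

The proof: the vectors `c` for which no prime `p > D` divides `c (i)` but not `c (j)` are a pronull set (its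
closure in the product of the `ℤ_p ^ ι`, `p` prime to `M`, has measure zero for all `M`), and by the engine
`Pool/Agent/N24/KM` (Koksma's theorem in several variables, and finite quotients) almost all of the
sequences above are in a pronull set only at a set of times of density zero.
-/

set_option autoImplicit false

namespace Pool.Agent.Results.MP_e573c6_ag.MetricSequences

open MeasureTheory Filter Topology
open Pool.Agent.N24.KM (Koksma Rarely)
open Pool.Agent.Results.MP_e573c6_ag.FamiliesAlmostAllParameters
open Pool.Agent.Results.MP_e573c6_ag.RandomOrbits (Controlled exists_bound)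
open Pool.Agent.N262.ZPO

/-- For one set `E` of natural density zero, all families `F`, `lam` and all finite sets `Γ` of algebraic
numbers: `Controlled F lam Γ (c k i) (c k j)` for all but finitely many `k` outside `E`. -/
def OneNullSet {ι : Type} (c : ℕ → ι → ℤ) (i j : ι) : Prop :=
  ∃ E : Set ℕ,
    Tendsto (fun N : ℕ => (({k : ℕ | k < N ∧ k ∈ E}.ncard : ℕ) : ℝ) / (N : ℝ)) atTop (𝓝 0) ∧
    ∀ (n : ℕ) (κ : Type) [Finite κ]
      (F : κ → MvPolynomial (Fin n × Bool) (Polynomial (algebraicClosure ℚ ℂ))), GoodOrigin F →
      ∀ lam : Fin n → Polynomial (algebraicClosure ℚ ℂ), (∀ l, 0 < (lam l).natDegree) →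
      ∀ Γ : Finset ℂ, (∀ γ ∈ Γ, IsAlgebraic ℚ γ) →
        ∃ K : ℕ, ∀ k, K ≤ k → k ∉ E → Controlled F lam (Γ : Set ℂ) (c k i) (c k j)

/-- sequences which are rarely exceptional -/
theorem oneNullSet_of {ι : Type} [Fintype ι] [DecidableEq ι] {c : ℕ → ι → ℤ} {i j : ι}
    (h : ∀ D : ℕ, Rarely c (Bad i j D)) : OneNullSet c i j := by
  obtain ⟨E, hE, hfin⟩ := diag (E := fun D => {k | c k ∈ Bad i j D})
    (fun D D' hDD k hk => bad_mono i j hDD hk) (fun D => h D)
  refine ⟨E, hE, fun n κ _ F hF lam hlam Γ hΓ => ?_⟩
  obtain ⟨D, hD⟩ := exists_bound F hF lam hlam Γ hΓ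
  obtain ⟨K, hK⟩ := (hfin D).bddAbove
  refine ⟨K + 1, fun k hk hkE => hD _ _ ?_⟩
  by_contra hbad
  have h1 : k ∈ {k | c k ∈ Bad i j D} \ E := ⟨hbad, hkE⟩
  have := hK h1
  omega

/-- **Zilber-Pink for all families of curves in `Y(1)^n` in general position at infinity, at algebraic
parameters of all degrees, along arbitrary sequences of integral vectors with a real parameter.** -/
theorem result {ι : Type} [Fintype ι] [DecidableEq ι] (i j : ι) (hij : i ≠ j) :
    (∀ (a : ι → ℕ → ℝ) (δ : ℝ), 0 < δ → (∀ l m n, m ≠ n → δ ≤ |a l m - a l n|) →
      ∀ᵐ α : ι → ℝ, OneNullSet (fun n l => ⌊a l n * α l⌋) i j) ∧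
    (∀ (k : ℕ → ℕ) (ξ : ι → ℝ), Function.Injective k → (∀ l, ξ l ≠ 0) →
      ∀ᵐ α : ι → ℝ, (∀ l, 1 < α l) → OneNullSet (fun n l => ⌊ξ l * α l ^ k n⌋) i j) ∧
    (∀ (a b : ι → ℝ) (f : ι → ℕ → ℝ → ℝ), (∀ l, a l < b l) → (∀ l, Koksma (a l) (b l) (f l)) →
      ∀ᵐ α : ι → ℝ, (∀ l, α l ∈ Set.Icc (a l) (b l)) →
        OneNullSet (fun n l => ⌊f l n (α l)⌋) i j) := by
  have hB : ∀ D : ℕ, Pool.Agent.N24.KM.Metric (Bad i j D) := fun D =>
    Pool.Agent.N24.KM.main ι _
      (proNull_bad Pool.Agent.N24.RW.clo Pool.Agent.N24.RW.one hij D)
  refine ⟨fun a δ hδ ha => ?_, fun k ξ hk hξ => ?_, fun a b f hab hf => ?_⟩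
  · filter_upwards [ae_all_iff.2 fun D => (hB D).2.1 a δ hδ ha] with α hα
    exact oneNullSet_of hα
  · filter_upwards [ae_all_iff.2 fun D => (hB D).2.2 k ξ hk hξ] with α hα h1
    exact oneNullSet_of fun D => hα D h1
  · filter_upwards [ae_all_iff.2 fun D => (hB D).1 a b f hab hf] with α hα h1
    exact oneNullSet_of fun D => hα D h1

end Pool.Agent.Results.MP_e573c6_ag.MetricSequences
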