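import Pool.Agent.N514.TH.Pure

/-!
# MP_e573c6_ag: one set of density zero for the Zilber-Pink conjecture for the members, with thin parameters, of all generic families of curves in `Y(1)^n`

**Families** (as in the starting file `ManyParameters`). Let `F` be a finite system of polynomials in the
coordinates `x ∈ Y(1)^n = ℂ^n` and `N` auxiliary coordinates `y ∈ ℂ^N`, with the exponents `supp q` and the
coefficients `b q β`, which are polynomials in `1 + s` variables `t = (t_0; t_1, …, t_s)` with integral
coefficients. For `t ∈ ℤ^(1+s)` let `X_t` be the set of the points `x ∈ ℂ^n` for which there is a `y ∈ ℂ^N`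
such that all polynomials of the system, with the coefficients evaluated at `t`, vanish at `(x, y)`
(`solC`). So `(X_t)` can be any family of curves (also space curves, and images of curves), or of
subvarieties of a given dimension `m`, which depends algebraically on `1 + s` parameters.

**Hypersurfaces.** Let `h_1, …, h_M` be non-zero polynomials in `t` which have a zero
`t_0 = a(t_1, …, t_s) / b(t_1, …, t_s)` in the field of the rational functions of `t_1, …, t_s` over some
number field (`HasRoot`; for `s = 0` every polynomial of positive degree has one). Each coefficient is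
supposed to be `h_l ^ e_l · g`, where `g` and `h_l` have no common factor of positive degree in `t_0`
(`HasOrd`). The condition `GenericC` on the tropicalizations along the `h_l` (for every type of special
subvarieties of dimension less than `n - m` there is an `l` such that no point of the tropicalization
along `h_l` is compatible with the type) is the one of the starting file `ManyParameters`.

**Thin parameters.** Let `P_0, P_1, P_2, …` be an infinite sequence of generalised polynomials
`P_i(n) = ∑ a_x n ^ x` (finitely many real exponents, real coefficients) with distinct leading exponents,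
which are positive and not integers and have positive coefficients; for example `P_i(n) = n ^ (i + √2)`.

**Theorem.** There is ONE set `E` of positive integers, of density zero in the intervals `(N, 2N]` and
of relative density zero in the PRIMES of these intervals, such that for ALL such families, all finite sets `Γ` of algebraic numbers, and all distinct indices `j_0, …, j_s` the member `X_t`
with the parameters

`t = (⌊P_{j_0}(n)⌋; ⌊P_{j_1}(n)⌋, …, ⌊P_{j_s}(n)⌋)`

has no atypical intersection with special subvarieties, for all but finitely many `n` outside `E`, and
for all countable fields `K ⊇ Γ` at once. This means: every irreducible closed subset of `X_t ∩ Z`, `Z`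
special of dimension `r`, has dimension at most `r + m - n`, and every point of it has at most this
transcendence degree over `K` (`NoAtypicalC`). For `m = 1` this says that the curve `X_t` does not meet any
special subvariety of codimension at least two, so that the set `atyp(X_t)` of the problem is empty, and
(codimension 1) that no component of `X_t` is contained in a proper special subvariety. The special
subvarieties may be more general than in the problem: their constant coordinates can be singular moduli
or arbitrary numbers which are integral over `ℤ[Γ]`.

The set `E` depends only on the `P_i`; the finite number of further exceptions depends on the family and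
on `Γ`. The starting file `ManyParameters` counts the exceptional parameters in boxes,
`O(B ^ (s + ε))` of the `(2B+1) ^ (s + 1)` parameters; the parameters `t(n) = (⌊P_0(n)⌋, …, ⌊P_s(n)⌋)`,
`n ≤ N`, are only `N` of the `N ^ (c_0 + … + c_s)` parameters of the box which contains them (`c_i` the
leading exponents), so that it says nothing about them, nor about prime `n`.

Proof. The engine `one_null` (helper924, helper666: Turan's sieve with the primes which split in the
number field, exponential sums, diagonal argument over the countable set of all pairs `(h, g)`) gives one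
null set `E` such that for `n ∉ E` large there are large primes `p_l` dividing `h_l(t)`, but none of the
`g(t)`. The local criterion of the starting library (`coreB`) is satisfied at places above them.
-/

set_option autoImplicit false

namespace Pool.Agent.Results.MP_e573c6_ag.OneNullSet

open Pool.Agent.R424.MP

/-- `h(t_0; t_1, …, t_s)` has a zero `t_0 = a / b` in the field of the rational functions of
`t_1, …, t_s` over some number field. -/
def HasRoot {s : ℕ} (h : Polynomial (MvPolynomial (Fin s) ℤ)) : Prop :=
  ∃ (K : Type) (_ : Field K) (_ : NumberField K)
    (a b : MvPolynomial (Fin s) (NumberField.RingOfIntegers K)), b ≠ 0 ∧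
    ∑ j ∈ Finset.range (h.natDegree + 1),
      MvPolynomial.map (algebraMap ℤ (NumberField.RingOfIntegers K)) (h.coeff j) * a ^ j *
        b ^ (h.natDegree - j) = 0

/-- `c` is the largest exponent of the generalised polynomial `∑ a_x n ^ x`; it is positive and not an
integer and has a positive coefficient. -/
def Admissible (F : Finset ℝ) (a : ℝ → ℝ) (c : ℝ) : Prop :=
  c ∈ F ∧ (∀ x ∈ F, x ≤ c) ∧ 0 < c ∧ (∀ m : ℕ, c ≠ m) ∧ 0 < a c

/-- The integer part of the value at `n` of the generalised polynomial `P_l`. -/
noncomputable def value (F : ℕ → Finset ℝ) (a : ℕ → ℝ → ℝ) (l n : ℕ) : ℤ :=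
  ⌊∑ x ∈ F l, a l x * (n : ℝ) ^ x⌋

/-- `E` has density zero relative to the sets `S N`. -/
def NullIn (S : ℕ → Finset ℕ) (E : Set ℕ) : Prop :=
  ∀ ε : ℝ, 0 < ε → ∃ N₀ : ℕ, ∀ N : ℕ, N₀ ≤ N →
    ({t : ℕ | t ∈ S N ∧ t ∈ E}.ncard : ℝ) ≤ ε * (S N).card

/-- **One set of density zero for the Zilber-Pink conjecture for all generic families of curves
(`m = 1`), or of subvarieties of dimension `m`, in `Y(1)^n` with thin integral parameters.** -/
theorem result (F : ℕ → Finset ℝ) (a : ℕ → ℝ → ℝ) (c : ℕ → ℝ)
    (hP : ∀ l, Admissible (F l) (a l) (c l)) (hc : Function.Injective c) :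
    ∃ E : Set ℕ, NullIn (fun N => Finset.Ioc N (2 * N)) E ∧
      NullIn (fun N => (Finset.Ioc N (2 * N)).filter Nat.Prime) E ∧
      ∀ (κ : Type) [Finite κ] (s n N m M : ℕ) (j : Fin (s + 1) → ℕ) (_ : Function.Injective j)
        (supp : κ → Finset ((Fin n ⊕ Fin N) →₀ ℕ))
        (b : κ → ((Fin n ⊕ Fin N) →₀ ℕ) → Polynomial (MvPolynomial (Fin s) ℤ))
        (h : Fin M → Polynomial (MvPolynomial (Fin s) ℤ)) (_ : ∀ l, h l ≠ 0 ∧ HasRoot (h l))
        (e : Fin M → κ → ((Fin n ⊕ Fin N) →₀ ℕ) → ℕ)
        (_ : ∀ l q, ∀ β ∈ supp q, HasOrd (h l) (b q β) (e l q β)) (_ : GenericC m supp e)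
        (Γ : Finset ℂ) (_ : ∀ γ ∈ Γ, IsAlgebraic ℚ γ),
        {t : ℕ | t ∉ E ∧ ¬ ∀ (K : Subfield ℂ) [Countable K], (∀ γ ∈ Γ, γ ∈ K) →
          NoAtypicalC (algebraMap (Algebra.adjoin ℤ (Γ : Set ℂ)) ℂ) K m
            (solC supp (fun q β =>
              ((ev (value F a (j 0) t) (fun i => value F a (j i.succ) t) (b q β) : ℤ) : ℂ)))}.Finite :=
  Pool.Agent.N514.TH.Pu.pureNull (fun _ => Finset.Subset.refl _) (fun _ => Finset.filter_subset _ _)
    (Pool.Agent.N924.TH.ud_fl hP hc).1 (Pool.Agent.N924.TH.ud_fl hP hc).2

end Pool.Agent.Results.MP_e573c6_ag.OneNullSet
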