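import Pool.Agent.N262.ZPO.Fam
import Pool.Agent.N262.ZPO.Orb
import Pool.Agent.N24.RW.All
import Pool.Agent.Results.MP_e573c6_ag.FamiliesAlmostAllParameters

/-!
# MP_e573c6_ag: Zilber-Pink for families of curves in `Y(1)^n` at algebraic parameters of all degrees, along
random orbits of (thin) groups of integral matrices

The families `F`, the members `X_t = member F lam t ⊂ Y(1)^n`, and the property `ZilberPink Γ X_t` (only
finitely many points of `X_t` are on special subvarieties of codimension at least two, and each proper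
special subvariety contains only finitely many points of `X_t`) are those of the starting file
`FamiliesAlmostAllParameters`: one-parameter families of curves, not necessarily isotrivial, of any genus
and any degree, which tend to the cusp `(∞, ..., ∞)` for `t → ∞` in general position (`GoodOrigin F`). For
example (`n = 2`) the families of the plane curves
`∑_{u ≤ a, v ≤ b} g_{uv} (1/t) t ^ (- u - v) x_1 ^ u x_2 ^ v = 0`, `g_{uv}` arbitrary polynomials with
`g_{00}, g_{a0}, g_{0b}, g_{ab} ≠ 0` at `0` and `∑ g_{uv} (0) y_1 ^ u y_2 ^ v` irreducible.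

**Parameters.** `Controlled F lam Γ m u` means: the members `X_t` satisfy `ZilberPink` for all algebraic
numbers `t` of any degree `d ≥ 1` which are roots of some polynomial `f` with integral coefficients, of
degree `d`, whose leading coefficient is a multiple of `m`, and whose next coefficient divides a power
of `u`. The other coefficients of `f` are arbitrary.

**Random orbits.** Let `s_0, ..., s_m ∈ SL_r(ℤ)` be matrices which generate `SL_r(ℤ/q)` for all `q` prime to
some `q_0` (`Walk`). By strong approximation every finite set of matrices which generates a Zariski dense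
subgroup of `SL_r` has this property, also if the subgroup is thin, i.e. of infinite index in `SL_r(ℤ)`. Let
`v ≠ 0` be an integral vector, and `c_k = s_(w_(k-1)) ... s_(w_0) v` (`orb W v w k`) for an infinite word `w`
with independent and uniformly distributed letters `w_l ∈ {0, ..., m}` (`words`).

**Theorem.** Let `i ≠ j` be two coordinates. For almost every word `w` there is one set `E` of times of
natural density zero, such that for **all** families `F`, `lam` and all finite sets `Γ` of algebraic numbers
`Controlled F lam Γ (c_k(i)) (c_k(j))` is true for all but finitely many times `k ∉ E`.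

So `E` does not depend on the family, the number `n` of the factors, the degrees of the curves, of the
`lam_i` and of `t`, or on `Γ`. In particular (`r = δ + 1`): for all but finitely many `k ∉ E` and all
algebraic numbers `t` of degree `δ` with `c_k(0) + c_k(1) t + ... + c_k(δ) t^δ = 0` the Zilber-Pink
conjecture holds for `X_t`.

In the theorem of the starting file the vectors `(a_0, ..., a_δ)` run through a box, the degree is fixed, and
the exceptional vectors depend on the family. Here the vectors are in one orbit of a group that may be thin,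
only about `(log H)^C` vectors of size at most `H` are visited, and there is one exceptional set for all
families and all degrees.

The proof: `X_t` satisfies `ZilberPink` if `t` has a pole at a place over a prime `p`, larger than a bound
that depends on the family and `Γ` only, at which `t` generates an unramified extension of the completion;
this follows from the theorems in `Pool/Agent/Y92/ZX`. The exceptional vectors are therefore contained in
pronull sets (the closure in the product of the `ℤ_p^r`, `p` prime to `M`, has measure zero for all `M`),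
and the theorem of `Pool/Agent/N24/RW` says that the random orbits visit a pronull set only at times of
density zero.
-/

set_option autoImplicit false

namespace Pool.Agent.Results.MP_e573c6_ag.RandomOrbits

open MeasureTheory Filter Topology
open Pool.Agent.N24.RW (Walk orb words)
open Pool.Agent.Results.MP_e573c6_ag.FamiliesAlmostAllParameters
open Pool.Agent.N262.ZPO

/-- The members `X_t` of the family satisfy the Zilber-Pink conjecture for all algebraic numbers `t`
which are roots of a polynomial `f` with integral coefficients, of the same degree as `t`, whose leading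
coefficient is a multiple of `m`, and whose next coefficient divides a power of `u`. -/
def Controlled {n : ℕ} {κ : Type}
    (F : κ → MvPolynomial (Fin n × Bool) (Polynomial (algebraicClosure ℚ ℂ)))
    (lam : Fin n → Polynomial (algebraicClosure ℚ ℂ)) (Γ : Set ℂ) (m u : ℤ) : Prop :=
  ∀ f : Polynomial ℤ, 0 < f.natDegree → m ∣ f.leadingCoeff →
    (∃ N : ℕ, f.coeff (f.natDegree - 1) ∣ u ^ N) →
      ∀ t : ℂ, (minpoly ℚ t).natDegree = f.natDegree → Polynomial.aeval t f = 0 →
        ZilberPink Γ (member F lam t)

/-- The local criterion for `Controlled`. -/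
theorem exists_bound {n : ℕ} {κ : Type} [Finite κ]
    (F : κ → MvPolynomial (Fin n × Bool) (Polynomial (algebraicClosure ℚ ℂ))) (hF : GoodOrigin F)
    (lam : Fin n → Polynomial (algebraicClosure ℚ ℂ)) (hlam : ∀ i, 0 < (lam i).natDegree)
    (Γ : Finset ℂ) (hΓ : ∀ γ ∈ Γ, IsAlgebraic ℚ γ) :
    ∃ D : ℕ, ∀ m u : ℤ, (∃ p : ℕ, p.Prime ∧ D < p ∧ (p : ℤ) ∣ m ∧ ¬ (p : ℤ) ∣ u) →
      Controlled F lam (Γ : Set ℂ) m u := by
  classical
  have hgen : ∀ q : Fin n × Fin n, ∃ (a b : ℕ)
      (g : ℕ → ℕ → Polynomial (algebraicClosure ℚ ℂ)), q.1 ≠ q.2 →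
      (g 0 0).eval 0 ≠ 0 ∧ (g a 0).eval 0 ≠ 0 ∧ (g 0 b).eval 0 ≠ 0 ∧ (g a b).eval 0 ≠ 0 ∧
      (∀ c : algebraicClosure ℚ ℂ, ∃ v ≤ b,
        ∑ u ∈ Finset.range (a + 1), (g u v).eval 0 * c ^ u ≠ 0) ∧
      pairForm q.1 q.2 a b g ∈ Ideal.span (Set.range F) := by
    intro q
    by_cases h : q.1 = q.2
    · exact ⟨0, 0, 0, fun h' => absurd h h'⟩
    · obtain ⟨a, b, g, h1⟩ := hF.general q.1 q.2 h
      exact ⟨a, b, g, fun _ => h1⟩
  choose a b g hg using hgen
  obtain ⟨D, hD⟩ := fam_prime_poly n κ (∑ q, (a q + b q)) F
    ⟨hF.form, hF.prime, hF.nonconstant, fun i j hij => by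
      obtain ⟨h1, h2, h3, h4, h5, h6⟩ := hg (i, j) hij
      have h7 : a (i, j) + b (i, j) ≤ ∑ q, (a q + b q) :=
        Finset.single_le_sum (f := fun q => a q + b q) (fun _ _ => Nat.zero_le _)
          (Finset.mem_univ (i, j))
      exact ⟨a (i, j), b (i, j), g (i, j), by omega, by omega, h1, h2, h3, h4, h5, h6⟩⟩
    lam hlam Γ hΓ
  refine ⟨D, ?_⟩
  rintro m u ⟨p, hp, hDp, hm, hu⟩ f hf h1 ⟨N, h2⟩ t ht hr
  have h3 : ¬ (p : ℤ) ∣ f.coeff (f.natDegree - 1) := fun h =>
    hu ((Nat.prime_iff_prime_int.1 hp).dvd_of_dvd_pow (h.trans h2))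
  obtain ⟨h4, h5⟩ := hD p hp hDp f hf (hm.trans h1) h3 t ht hr
  refine ⟨h4.subset ?_, fun r Z hr => (h5 r Z.toSV hr).subset ?_⟩
  · rintro x ⟨⟨y, hy, hx⟩, r, Z, hr, hZ⟩
    exact ⟨⟨y, hy, hx⟩, r, Z.toSV, hr, hZ⟩
  · rintro x ⟨⟨y, hy, hx⟩, hZ⟩
    exact ⟨⟨y, hy, hx⟩, hZ⟩

/-- **Zilber-Pink for all families of curves in `Y(1)^n` in general position at infinity, at algebraic
parameters of all degrees, along random orbits of (thin) groups of integral matrices.** -/
theorem result {ι : Type} [Fintype ι] [DecidableEq ι] (i j : ι) (hij : i ≠ j) (W : Walk ι)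
    (v : ι → ℤ) (hv : v ≠ 0) :
    ∀ᵐ w ∂(words W.m), ∃ E : Set ℕ,
      Tendsto (fun N : ℕ => (({k : ℕ | k < N ∧ k ∈ E}.ncard : ℕ) : ℝ) / (N : ℝ)) atTop (𝓝 0) ∧
      ∀ (n : ℕ) (κ : Type) [Finite κ]
        (F : κ → MvPolynomial (Fin n × Bool) (Polynomial (algebraicClosure ℚ ℂ))), GoodOrigin F →
        ∀ lam : Fin n → Polynomial (algebraicClosure ℚ ℂ), (∀ l, 0 < (lam l).natDegree) →
        ∀ Γ : Finset ℂ, (∀ γ ∈ Γ, IsAlgebraic ℚ γ) →
          ∃ K : ℕ, ∀ k, K ≤ k → k ∉ E →
            Controlled F lam (Γ : Set ℂ) (orb W v w k i) (orb W v w k j) := by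
  filter_upwards [orb_null Pool.Agent.N24.RW.clo Pool.Agent.N24.RW.one Pool.Agent.N24.RW.main hij W v
    hv] with w hw
  obtain ⟨E, hE, h1⟩ := hw
  refine ⟨E, hE, fun n κ _ F hF lam hlam Γ hΓ => ?_⟩
  obtain ⟨D, hD⟩ := exists_bound F hF lam hlam Γ hΓ
  obtain ⟨K, hK⟩ := h1 D
  refine ⟨K, fun k hk hkE => hD _ _ ?_⟩
  by_contra h
  exact hK k hk hkE h

end Pool.Agent.Results.MP_e573c6_ag.RandomOrbits
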