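import Pool.Agent.N18.RV.Core
import Pool.Agent.N262.ZPO.Fam
import Pool.Agent.N262.ZPO.Orb
import Pool.Agent.N24.RW.All
import Pool.Agent.N384.VF.Ex
import Pool.Agent.Results.MP_e573c6_ag.FamiliesAlmostAllParameters

/-!
# MP_e573c6_ag: Zilber-Pink for families of curves in `Y(1)^n` at algebraic parameters of all degrees, for almost all
# members of thin families of vectors of residues

The families `F`, the members `X_t = member F lam t ⊂ Y(1)^n`, and the property `ZilberPink Γ X_t` (only
finitely many points of `X_t` are on special subvarieties of codimension at least two, and each proper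
special subvariety contains only finitely many points of `X_t`) are those of the starting file
`FamiliesAlmostAllParameters`: one-parameter families of curves, not necessarily isotrivial, of any genus
and any degree, which tend to the cusp `(∞, ..., ∞)` for `t → ∞` in general position (`GoodOrigin F`). For
example (`n = 2`) the families of the plane curves
`∑_{u ≤ a, v ≤ b} g_{uv} (1/t) t ^ (- u - v) x_1 ^ u x_2 ^ v = 0`, `g_{uv}` arbitrary polynomials with
`g_{00}, g_{a0}, g_{0b}, g_{ab} ≠ 0` at `0` and `∑ g_{uv} (0) y_1 ^ u y_2 ^ v` irreducible.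

**Parameters.** `Controlled F lam Γ m u` means: the members `X_t` satisfy `ZilberPink` for all algebraic
numbers `t` of any degree `d ≥ 1` which are roots of some polynomial `f` with integral coefficients, of
degree `d`, whose leading coefficient is a multiple of `m`, and whose next coefficient divides a power
of `u`. The other coefficients of `f` are arbitrary.

**Families of vectors.** `s` is a finite set, `y_x`, `x ∈ s`, are vectors of residues modulo some `q`, such that
`|∑ x ∈ s, e(h·y_x / q)| ≤ |s| / (Z (42 + 3 log q) ^ r)` for all vectors `h ≠ 0` modulo `q`, where `r` is the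
number of the coordinates and `Z ≤ q` (`Small q Z s y`). `vec y c₀ x` is the integral vector `c₀ + y_x`, where
`0 ≤ y_x < q` are the least residues and `c₀` is any integral vector.

**Theorem (1).** Let `i ≠ j` be two coordinates. There are sets `E Z` of integral vectors, one for each real number `Z`,
and `ω Z → 0` for `Z → ∞`, such that for all families as above, of arbitrary size, at most `ω Z |s|` of the vectors
`c₀ + y_x` are in `E Z`; and for **all** families of curves `F`, `lam` and all finite sets `Γ` of algebraic numbers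
there is `K` such that for all `Z ≥ K` and all vectors `v` outside `E Z`, `Controlled F lam Γ (v i) (v j)` is true.

So the set `E Z` depends neither on the family of vectors nor on the family of curves, the number `n` of the
factors, the degrees of the curves, of the `lam_i` and of `t`, or on `Γ`.

**Examples.** (2) Products of families of residues. (3) Families of residues modulo primes `p`: the quotients
`j / r` of the integers `0 ≤ j < S` by the primes `r ≤ R`; the cosets of all subgroups of the multiplicative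
group of an order of at least `5 p ^ (3/8) K ^ 3`; the residues `a b + g(a) + k(b)`, `a ∈ A`, `b ∈ B`. (4) Polynomial
curves `(f_j(n))_j` modulo `p`, `0 ≤ n < x`, with only about `p ^ (1 / d)` members. In all the examples the upper bound
`|s| / K` for the Fourier coefficients holds for all `K ≥ 1` in a range that includes the powers of `log p`.

From Mathlib: `ZMod.stdAddChar`: the additive character `j ↦ exp (2 π i j / q)` of the integers modulo `q`; `ZMod.val`: the
least residue; `Fintype.piFinset`: the product of finite sets.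

The proof: `X_t` satisfies `ZilberPink` if `t` has a pole at a place over a prime `p`, larger than a bound
that depends on the family and `Γ` only, at which `t` generates an unramified extension of the completion;
this follows from the theorems in `Pool/Agent/Y92/ZX`. The exceptional vectors are therefore contained in
pronull sets (helpers 24, 262): their images modulo suitable integers `Q` have as few elements as one likes,
compared to `Q ^ r`. The families of residues with small Fourier coefficients are well distributed modulo `Q`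
(helper384).
-/

set_option autoImplicit false

namespace Pool.Agent.Results.MP_e573c6_ag.ResidueVectors

open Filter Topology
open Pool.Agent.Results.MP_e573c6_ag.FamiliesAlmostAllParameters

/-- The Fourier coefficients of the vectors of residues `y x`, `x ∈ s`, modulo `q` at the nonzero frequencies are at most
`η` times the number of the vectors: `|∑ x ∈ s, e(h·y_x / q)| ≤ η |s|` for all vectors `h ≠ 0` modulo `q`. -/
def Flat {τ ι : Type} [Fintype ι] (q : ℕ) [NeZero q] (η : ℝ) (s : Finset τ) (y : τ → ι → ZMod q) : Prop :=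
  ∀ h : ι → ZMod q, h ≠ 0 → ‖∑ x ∈ s, (ZMod.stdAddChar (∑ j, h j * y x j) : ℂ)‖ ≤ η * s.card

/-- The same for residues (vectors with one coordinate). -/
def Flat1 {τ : Type} (q : ℕ) [NeZero q] (η : ℝ) (s : Finset τ) (y : τ → ZMod q) : Prop :=
  ∀ h : ZMod q, h ≠ 0 → ‖∑ x ∈ s, (ZMod.stdAddChar (h * y x) : ℂ)‖ ≤ η * s.card

/-- `Z ≤ q`, and the Fourier coefficients at the nonzero frequencies are at most `|s| / (Z (42 + 3 log q) ^ r)`, where `r` is
the number of the coordinates. -/
def Small {τ ι : Type} [Fintype ι] (q : ℕ) [NeZero q] (Z : ℝ) (s : Finset τ) (y : τ → ι → ZMod q) : Prop :=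
  Z ≤ q ∧ Flat q (1 / (Z * (42 + 3 * Real.log q) ^ Fintype.card ι)) s y

/-- The integral vector `c₀ + y_x`, with the least residues `0 ≤ y_x < q`. -/
def vec {τ ι : Type} {q : ℕ} (y : τ → ι → ZMod q) (c₀ : ι → ℤ) (x : τ) (j : ι) : ℤ := c₀ j + ((y x j).val : ℕ)

/-- The members `X_t` of the family satisfy the Zilber-Pink conjecture for all algebraic numbers `t`
which are roots of a polynomial `f` with integral coefficients, of the same degree as `t`, whose leading
coefficient is a multiple of `m`, and whose next coefficient divides a power of `u`. -/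
def Controlled {n : ℕ} {κ : Type}
    (F : κ → MvPolynomial (Fin n × Bool) (Polynomial (algebraicClosure ℚ ℂ)))
    (lam : Fin n → Polynomial (algebraicClosure ℚ ℂ)) (Γ : Set ℂ) (m u : ℤ) : Prop :=
  ∀ f : Polynomial ℤ, 0 < f.natDegree → m ∣ f.leadingCoeff →
    (∃ N : ℕ, f.coeff (f.natDegree - 1) ∣ u ^ N) →
      ∀ t : ℂ, (minpoly ℚ t).natDegree = f.natDegree → Polynomial.aeval t f = 0 →
        ZilberPink Γ (member F lam t)

open Pool.Agent.N262.ZPO in
/-- The local criterion for `Controlled` (helper262). -/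
theorem exists_bound {n : ℕ} {κ : Type} [Finite κ]
    (F : κ → MvPolynomial (Fin n × Bool) (Polynomial (algebraicClosure ℚ ℂ))) (hF : GoodOrigin F)
    (lam : Fin n → Polynomial (algebraicClosure ℚ ℂ)) (hlam : ∀ i, 0 < (lam i).natDegree)
    (Γ : Finset ℂ) (hΓ : ∀ γ ∈ Γ, IsAlgebraic ℚ γ) :
    ∃ D : ℕ, ∀ m u : ℤ, (∃ p : ℕ, p.Prime ∧ D < p ∧ (p : ℤ) ∣ m ∧ ¬ (p : ℤ) ∣ u) →
      Controlled F lam (Γ : Set ℂ) m u := by
  classical
  have hgen : ∀ q : Fin n × Fin n, ∃ (a b : ℕ)
      (g : ℕ → ℕ → Polynomial (algebraicClosure ℚ ℂ)), q.1 ≠ q.2 →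
      (g 0 0).eval 0 ≠ 0 ∧ (g a 0).eval 0 ≠ 0 ∧ (g 0 b).eval 0 ≠ 0 ∧ (g a b).eval 0 ≠ 0 ∧
      (∀ c : algebraicClosure ℚ ℂ, ∃ v ≤ b,
        ∑ u ∈ Finset.range (a + 1), (g u v).eval 0 * c ^ u ≠ 0) ∧
      pairForm q.1 q.2 a b g ∈ Ideal.span (Set.range F) := by
    intro q
    by_cases h : q.1 = q.2
    · exact ⟨0, 0, 0, fun h' => absurd h h'⟩
    · obtain ⟨a, b, g, h1⟩ := hF.general q.1 q.2 h
      exact ⟨a, b, g, fun _ => h1⟩
  choose a b g hg using hgen
  obtain ⟨D, hD⟩ := fam_prime_poly n κ (∑ q, (a q + b q)) F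
    ⟨hF.form, hF.prime, hF.nonconstant, fun i j hij => by
      obtain ⟨h1, h2, h3, h4, h5, h6⟩ := hg (i, j) hij
      have h7 : a (i, j) + b (i, j) ≤ ∑ q, (a q + b q) :=
        Finset.single_le_sum (f := fun q => a q + b q) (fun _ _ => Nat.zero_le _)
          (Finset.mem_univ (i, j))
      exact ⟨a (i, j), b (i, j), g (i, j), by omega, by omega, h1, h2, h3, h4, h5, h6⟩⟩
    lam hlam Γ hΓ
  refine ⟨D, ?_⟩
  rintro m u ⟨p, hp, hDp, hm, hu⟩ f hf h1 ⟨N, h2⟩ t ht hr
  have h3 : ¬ (p : ℤ) ∣ f.coeff (f.natDegree - 1) := fun h =>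
    hu ((Nat.prime_iff_prime_int.1 hp).dvd_of_dvd_pow (h.trans h2))
  obtain ⟨h4, h5⟩ := hD p hp hDp f hf (hm.trans h1) h3 t ht hr
  refine ⟨h4.subset ?_, fun r Z hr => (h5 r Z.toSV hr).subset ?_⟩
  · rintro x ⟨⟨y, hy, hx⟩, r, Z, hr, hZ⟩
    exact ⟨⟨y, hy, hx⟩, r, Z.toSV, hr, hZ⟩
  · rintro x ⟨⟨y, hy, hx⟩, hZ⟩
    exact ⟨⟨y, hy, hx⟩, hZ⟩

/-- **(1)** Let `i ≠ j` be two coordinates. There are sets `E Z` of integral vectors and `ω Z → 0` for `Z → ∞`, such that for
all families of vectors `y_x`, `x ∈ s`, of residues modulo any `q` with Fourier coefficients at most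
`|s| / (Z (42 + 3 log q) ^ r)` at all nonzero frequencies, `Z ≤ q`, and all integral vectors `c₀`, at most `ω Z |s|` of the
vectors `c₀ + y_x` are in `E Z`; and for all families of curves `F`, `lam` and all `Γ` there is `K` such that
`Controlled F lam Γ (v i) (v j)` for all `Z ≥ K` and all integral vectors `v` not in `E Z`.

**(2)** Products: if the residues `y_j(t)`, `t ∈ s_j`, have Fourier coefficients at most `η |s_j|` for each coordinate `j`, then
the product family of vectors `(y_j(g_j))_j`, `g_j ∈ s_j`, has Fourier coefficients at most `η` times the number of its members.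

**(3)** Families of residues modulo primes `p` with Fourier coefficients at most `|s| / K`, `K ≥ 1` arbitrary: the quotients
`j / r` of the integers `0 ≤ j < S` by the primes `r ≤ R`, if `K log ^ 4 p ≤ R < p` and `R ^ 2 ≤ S` (and `p` is large); the cosets
of all subgroups of the multiplicative group of an order of at least `5 p ^ (3/8) K ^ 3`; the residues `a b + g(a) + k(b)`,
`a ∈ A`, `b ∈ B`, for arbitrary sets with `|A| |B| ≥ p K ^ 2` and arbitrary functions `g` and `k`.

**(4)** Polynomial curves: for `1 ≤ d ≤ D` there is `C` such that for all primes `p` and all integral polynomials `f_j` of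
pairwise distinct degrees between `d` and `D` whose leading coefficients are not divisible by `p`, the vectors `(f_j(n))_j`
modulo `p`, `0 ≤ n < x`, have Fourier coefficients at most `x / K` for all `K ≥ 1` with `C K ^ C ≤ p` and
`C K ^ C p ≤ x ^ d`. (So there are such families with only about `p ^ (1 / d)` members.) -/
theorem result :
    (∀ (ι : Type) [Fintype ι] [DecidableEq ι] (i j : ι), i ≠ j →
      ∃ (E : ℝ → Set (ι → ℤ)) (ω : ℝ → ℝ), Tendsto ω atTop (𝓝 0) ∧
        (∀ (τ : Type) (q : ℕ) [NeZero q] (s : Finset τ) (y : τ → ι → ZMod q) (Z : ℝ), Small q Z s y → ∀ c₀ : ι → ℤ,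
          ({x : τ | x ∈ s ∧ vec y c₀ x ∈ E Z}.ncard : ℝ) ≤ ω Z * s.card) ∧
        ∀ (n : ℕ) (κ : Type) [Finite κ]
          (F : κ → MvPolynomial (Fin n × Bool) (Polynomial (algebraicClosure ℚ ℂ))), GoodOrigin F →
          ∀ lam : Fin n → Polynomial (algebraicClosure ℚ ℂ), (∀ l, 0 < (lam l).natDegree) →
          ∀ Γ : Finset ℂ, (∀ γ ∈ Γ, IsAlgebraic ℚ γ) →
            ∃ K : ℝ, ∀ Z : ℝ, K ≤ Z → ∀ v : ι → ℤ, v ∉ E Z → Controlled F lam (Γ : Set ℂ) (v i) (v j)) ∧
    (∀ (ι : Type) [Fintype ι] [DecidableEq ι] (q : ℕ) [NeZero q] (η : ℝ) (τ : Type) (s : ι → Finset τ) (y : ι → τ → ZMod q),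
      (∀ j, Flat1 q η (s j) (y j)) → Flat q η (Fintype.piFinset s) (fun g j => y j (g j))) ∧
    (∃ P₀ : ℕ, ∀ p : ℕ, P₀ ≤ p → ∀ [Fact p.Prime] (K : ℝ), 1 ≤ K →
      (∀ R S : ℕ, K * Real.log p ^ 4 ≤ R → R < p → R ^ 2 ≤ S →
        Flat1 p (1 / K) (((Finset.Icc 1 R).filter Nat.Prime) ×ˢ Finset.range S)
          (fun z => ((z.2 : ℕ) : ZMod p) * ((z.1 : ℕ) : ZMod p)⁻¹)) ∧
      (∀ (H : Subgroup (ZMod p)ˣ) (s : Finset (ZMod p)ˣ), (∀ u, u ∈ s ↔ u ∈ H) →
        5 * (p : ℝ) ^ (3 / 8 : ℝ) * K ^ 3 ≤ s.card → ∀ x : ZMod p, x ≠ 0 → Flat1 p (1 / K) s (fun u => x * (u : ZMod p))) ∧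
      (∀ (A B : Finset (ZMod p)) (g k : ZMod p → ZMod p), (p : ℝ) * K ^ 2 ≤ A.card * B.card →
        Flat1 p (1 / K) (A ×ˢ B) (fun z => z.1 * z.2 + g z.1 + k z.2))) ∧
    (∀ d D : ℕ, 1 ≤ d → ∃ C : ℕ, ∀ (ι : Type) [Fintype ι] (p : ℕ) [Fact p.Prime] (f : ι → Polynomial ℤ),
      (∀ j, d ≤ (f j).natDegree ∧ (f j).natDegree ≤ D ∧ ¬ (p : ℤ) ∣ (f j).leadingCoeff) →
      Function.Injective (fun j => (f j).natDegree) → ∀ K : ℝ, 1 ≤ K → C * K ^ C ≤ p → ∀ x : ℕ,
      C * K ^ C * p ≤ (x : ℝ) ^ d → Flat p (1 / K) (Finset.range x) (fun n j => (((f j).eval (n : ℤ) : ℤ) : ZMod p))) := by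
  refine ⟨fun ι _ _ i j hij => ?_, fun ι _ _ q _ η τ s y h => Pool.Agent.N384.VF.flat_pi q η s y h, ?_,
    fun d D hd => Pool.Agent.N384.VF.flat_poly d D hd⟩
  · obtain ⟨E, ω, hω, h1, h2⟩ := Pool.Agent.N18.RV.diag (fun D => Pool.Agent.N262.ZPO.Bad i j D)
      (fun D D' h => Pool.Agent.N262.ZPO.bad_mono i j h)
      (fun D => Pool.Agent.N262.ZPO.proNull_bad Pool.Agent.N24.RW.clo Pool.Agent.N24.RW.one hij D)
    refine ⟨E, ω, hω, fun τ q _ s y Z hs c₀ => h2 τ q s y Z ⟨hs.1, hs.2⟩ c₀, fun n κ _ F hF lam hlam Γ hΓ => ?_⟩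
    obtain ⟨D, hD⟩ := exists_bound F hF lam hlam Γ hΓ
    obtain ⟨K, hK⟩ := h1 D
    refine ⟨K, fun Z hZ v hv => hD _ _ ?_⟩
    by_contra h
    exact hv (hK Z hZ h)
  · obtain ⟨P₀, h0⟩ := Pool.Agent.N384.MQ.flatK_quot
    exact ⟨P₀, fun p hp _ K hK => ⟨fun R S => h0 p hp K hK R S,
      fun H s hs hc x hx => Pool.Agent.N384.MQ.flatK_coset p H s hs K hK hc x hx,
      fun A B g k hAB => Pool.Agent.N384.MQ.flatK_prod p A B g k K hK hAB⟩⟩

end Pool.Agent.Results.MP_e573c6_ag.ResidueVectors
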